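import Mathlib

/-!
# Cayley graphs on `ℤ/p` whose generators are covered by linear phases

MP_2bc700_co. For every `r > 0` there is `b` with `‖b s / p‖ ≥ r` for all `s ∈ S` if and only if
`Cay(ℤ/p, S)` has a circular colouring, with adjacent vertices at distance at least `r` on the circle,
in which no square `x, x + s, x + s + t, x + t` winds around the circle; and it is enough that along
each generator the jumps of the colouring lie in an arc of length less than `1/2`. Likewise `S` is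
covered by `m` linear phases if and only if it is a union of `m` such sets. For `r > 1/4` the
condition is automatic, and that case is the starting result `MP_cbd4b2_an.ThreeColours`.
-/

set_option autoImplicit false

namespace Pool.Agent.Results.MP_2bc700_co.LinearPhases

/-- the distance to the nearest integer -/
noncomputable def nz (t : ℝ) : ℝ := |t - round t|

/-- `c` is a circular colouring: adjacent vertices have distance at least `r` on the circle `ℝ/ℤ` -/
def IsCirc (p : ℕ) (S : Set (ZMod p)) (r : ℝ) (c : ZMod p → ℝ) : Prop :=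
  ∀ x y : ZMod p, x - y ∈ S → r ≤ nz (c x - c y)

/-- no square `x, x + s, x + s + t, x + t` winds around the circle: going in the positive direction
from `c x` to `c (x + s + t)` through `c (x + s)` or through `c (x + t)` takes the same total -/
def NoWind (p : ℕ) (S : Set (ZMod p)) (c : ZMod p → ℝ) : Prop :=
  ∀ s ∈ S, ∀ t ∈ S, ∀ x : ZMod p,
    Int.fract (c (x + s) - c x) + Int.fract (c (x + s + t) - c (x + s)) =
      Int.fract (c (x + t) - c x) + Int.fract (c (x + s + t) - c (x + t))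

/-- along each `s ∈ S` the jumps of `c`, as numbers of `[0, 1)`, differ by less than `1/2` -/
def Narrow (p : ℕ) (S : Set (ZMod p)) (c : ZMod p → ℝ) : Prop :=
  ∀ s ∈ S, ∀ x y : ZMod p, Int.fract (c (x + s) - c x) - Int.fract (c (y + s) - c y) < 1 / 2

/-- the jump of a colouring by `0, ..., C - 1` along `s`, as a residue in `0, ..., C - 1` -/
def jump {p C : ℕ} (f : ZMod p → Fin C) (s x : ZMod p) : ℤ :=
  (((f (x + s)).val : ℤ) - ((f x).val : ℤ)) % (C : ℤ)

/-- `S` is covered by `m` linear phases: for each `s ∈ S` some `j < m` has `‖b j s / p‖ ≥ r` -/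
def Cov (p : ℕ) (S : Set (ZMod p)) (m : ℕ) (r : ℝ) : Prop :=
  ∃ b : Fin m → ZMod p, ∀ s ∈ S, ∃ j, r ≤ nz (((b j * s).val : ℝ) / p)

/-- `S` is avoided by a linear phase: `‖b s / p‖ ≥ r` for all `s ∈ S` -/
def Lin (p : ℕ) (S : Set (ZMod p)) (r : ℝ) : Prop :=
  ∃ b : ZMod p, ∀ s ∈ S, r ≤ nz (((b * s).val : ℝ) / p)

/-- the property of Q1 for one graph: `K` polynomials `a x² + b x` such that each element of `S` is
sent by one of them to an element with `‖ · / p‖ > 1 / K` -/
def Quad (p : ℕ) (S : Set (ZMod p)) (K : ℕ) : Prop :=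
  ∃ P : Fin K → ZMod p × ZMod p, ∀ s ∈ S, ∃ j, 1 / (K : ℝ) <
    nz ((((P j).1 * s ^ 2 + (P j).2 * s).val : ℝ) / p)

lemma nz_le (t : ℝ) (n : ℤ) : nz t ≤ |t - n| := round_le t n

lemma nz_add_int (t : ℝ) (n : ℤ) : nz (t + n) = nz t := by
  unfold nz
  rw [round_add_intCast]
  push_cast
  congr 1
  ring

lemma nz_neg (t : ℝ) : nz (-t) = nz t := by
  apply le_antisymm
  · refine (nz_le (-t) (-round t)).trans (le_of_eq ?_)
    unfold nz
    rw [← abs_neg]
    congr 1
    push_cast
    ring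
  · refine (nz_le t (-round (-t))).trans (le_of_eq ?_)
    unfold nz
    rw [← abs_neg]
    congr 1
    push_cast
    ring

/-- the fractional part -/
lemma fract_mem {d r : ℝ} (h : r ≤ nz d) : r ≤ Int.fract d ∧ Int.fract d ≤ 1 - r := by
  have h1 := nz_le d ⌊d⌋
  have h2 := nz_le d (⌊d⌋ + 1)
  have h3 := Int.fract_nonneg d
  have h4 := Int.fract_lt_one d
  have h5 : d - ⌊d⌋ = Int.fract d := rfl
  have h6 : d - ((⌊d⌋ + 1 : ℤ) : ℝ) = Int.fract d - 1 := by
    push_cast
    rw [← h5]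
    ring
  rw [h5, abs_of_nonneg h3] at h1
  rw [h6, abs_of_nonpos (by linarith)] at h2
  constructor <;> linarith

lemma le_nz {y r : ℝ} (h1 : r ≤ y) (h2 : y ≤ 1 - r) (m : ℤ) : r ≤ nz (y + m) := by
  unfold nz
  set n := round (y + m) with hn
  have e : y + m - n = y - ((n - m : ℤ) : ℝ) := by push_cast; ring
  rw [e]
  rcases le_or_gt (n - m) 0 with h | h
  · have h3 : ((n - m : ℤ) : ℝ) ≤ 0 := by exact_mod_cast h
    exact (by linarith : r ≤ y - ((n - m : ℤ) : ℝ)).trans (le_abs_self _)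
  · have h3 : (1 : ℝ) ≤ ((n - m : ℤ) : ℝ) := by exact_mod_cast h
    exact (by linarith : r ≤ -(y - ((n - m : ℤ) : ℝ))).trans (neg_le_abs _)

section

variable {p : ℕ} [Fact p.Prime]

/-- the centred difference -/
noncomputable def Fd (c : ZMod p → ℝ) (s x : ZMod p) : ℝ := Int.fract (c (x + s) - c x) - 1 / 2

/-- the integer part -/
noncomputable def Nd (c : ZMod p → ℝ) (s x : ZMod p) : ℤ := ⌊c (x + s) - c x⌋

lemma Fd_eq (c : ZMod p → ℝ) (s x : ZMod p) : Fd c s x = c (x + s) - c x - Nd c s x - 1 / 2 := rfl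

variable {S : Set (ZMod p)} {r : ℝ} {c : ZMod p → ℝ}

lemma Fd_abs (hc : IsCirc p S r c) {s : ZMod p} (hs : s ∈ S)
    (x : ZMod p) : |Fd c s x| ≤ 1 / 2 - r := by
  have h := fract_mem (hc (x + s) x (by rwa [add_sub_cancel_left]))
  unfold Fd
  rw [abs_le]
  constructor <;> linarith [h.1, h.2]

/-- if the jumps along each generator differ by less than `1/2`, then no square winds -/
lemma noWind_of (hW : Narrow p S c) : NoWind p S c := by
  intro s hs t ht x
  have h1 := hW s hs x (x + t)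
  have h2 := hW s hs (x + t) x
  have h3 := hW t ht x (x + s)
  have h4 := hW t ht (x + s) x
  rw [add_right_comm x t s] at h1 h2
  obtain ⟨n, hn⟩ : ∃ n : ℤ, n = -Nd c s x - Nd c t (x + s) + Nd c s (x + t) + Nd c t x := ⟨_, rfl⟩
  have h5 : Fd c s x + Fd c t (x + s) - Fd c s (x + t) - Fd c t x = n := by
    rw [hn]
    simp only [Fd_eq]
    rw [add_right_comm x t s]
    push_cast
    ring
  unfold Fd at h5
  rw [add_right_comm x t s] at h5
  have h6 : (n : ℝ) < 1 := by rw [← h5]; linarith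
  have h7 : (-1 : ℝ) < n := by rw [← h5]; linarith
  have h8 : n < 1 := by exact_mod_cast h6
  have h9 : -1 < n := by exact_mod_cast h7
  have h10 : n = 0 := by omega
  rw [h10] at h5
  push_cast at h5
  linarith

/-- the squares are contractible -/
lemma square (hN : NoWind p S c) {s t : ZMod p} (hs : s ∈ S) (ht : t ∈ S) (x : ZMod p) :
    Fd c s (x + t) - Fd c s x = Fd c t (x + s) - Fd c t x := by
  have h := hN s hs t ht x
  unfold Fd
  rw [add_right_comm x t s]
  linarith

/-- the sum over a period -/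
noncomputable def Wd (c : ZMod p → ℝ) (s : ZMod p) : ℝ := ∑ x, Fd c s x

/-- the phase -/
noncomputable def th (c : ZMod p → ℝ) (s : ZMod p) : ℝ := Wd c s / p + 1 / 2

lemma p_pos : (0 : ℝ) < p := by exact_mod_cast (Fact.out : p.Prime).pos

lemma th_mem (hc : IsCirc p S r c) {s : ZMod p} (hs : s ∈ S) :
    r ≤ th c s ∧ th c s ≤ 1 - r := by
  have hp := p_pos (p := p)
  have h1 : |Wd c s| ≤ p * (1 / 2 - r) := by
    unfold Wd
    refine (Finset.abs_sum_le_sum_abs _ _).trans ?_
    refine (Finset.sum_le_sum fun x _ => Fd_abs hc hs x).trans (le_of_eq ?_)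
    rw [Finset.sum_const, Finset.card_univ, ZMod.card, nsmul_eq_mul]
  have h2 : |Wd c s / p| ≤ 1 / 2 - r := by
    rw [abs_div, abs_of_pos hp, div_le_iff₀ hp]
    linarith
  have h3 := abs_le.1 h2
  unfold th
  constructor <;> linarith [h3.1, h3.2]

/-- the phases are linear modulo one -/
lemma th_lin (hN : NoWind p S c) {s t : ZMod p} (hs : s ∈ S) (ht : t ∈ S) (ht0 : t ≠ 0) (k : ℕ)
    (hk : s = k * t) : ∃ m : ℤ, th c s = k * th c t + m := by
  have hp := p_pos (p := p)
  obtain ⟨g, hg⟩ : ∃ g : ZMod p → ℝ, g = fun x => Fd c s x -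
    ∑ j ∈ Finset.range k, Fd c t (x + j * t) := ⟨_, rfl⟩
  -- the function is invariant
  have hinv : ∀ x, g (x + t) = g x := by
    intro x
    have h1 := square hN hs ht x
    have h2 : ∑ j ∈ Finset.range k, (Fd c t (x + ((j + 1 : ℕ) : ZMod p) * t) -
        Fd c t (x + ((j : ℕ) : ZMod p) * t)) = Fd c t (x + (k : ZMod p) * t) -
        Fd c t (x + ((0 : ℕ) : ZMod p) * t) :=
      Finset.sum_range_sub (fun j : ℕ => Fd c t (x + (j : ZMod p) * t)) k
    rw [Finset.sum_sub_distrib, ← hk, Nat.cast_zero, zero_mul, add_zero] at h2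
    have h3 : ∑ j ∈ Finset.range k, Fd c t (x + t + (j : ZMod p) * t) =
        ∑ j ∈ Finset.range k, Fd c t (x + ((j + 1 : ℕ) : ZMod p) * t) := by
      refine Finset.sum_congr rfl fun j _ => ?_
      congr 1
      push_cast
      ring
    rw [hg]
    simp only
    rw [h3]
    linarith
  have hinv2 : ∀ m : ℕ, g (m * t) = g 0 := by
    intro m
    induction m with
    | zero => rw [Nat.cast_zero, zero_mul]
    | succ m ih =>
      have h1 : ((m + 1 : ℕ) : ZMod p) * t = m * t + t := by push_cast; ring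
      rw [h1, hinv, ih]
  have hconst : ∀ x, g x = g 0 := by
    intro x
    have h1 := hinv2 (x * t⁻¹).val
    rw [ZMod.natCast_val, ZMod.cast_id, mul_assoc, inv_mul_cancel₀ ht0, mul_one] at h1
    exact h1
  -- its value modulo one
  obtain ⟨m, hm⟩ : ∃ m : ℤ, g 0 = (k - 1) / 2 + m := by
    refine ⟨-Nd c s 0 + ∑ j ∈ Finset.range k, Nd c t (j * t), ?_⟩
    have h2 : ∑ j ∈ Finset.range k, (c (((j + 1 : ℕ) : ZMod p) * t) -
        c (((j : ℕ) : ZMod p) * t)) = c ((k : ZMod p) * t) - c (((0 : ℕ) : ZMod p) * t) :=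
      Finset.sum_range_sub (fun j : ℕ => c ((j : ZMod p) * t)) k
    rw [← hk, Nat.cast_zero, zero_mul] at h2
    have h3 : ∑ j ∈ Finset.range k, Fd c t (0 + (j : ZMod p) * t) =
        ∑ j ∈ Finset.range k, ((c (((j + 1 : ℕ) : ZMod p) * t) -
          c (((j : ℕ) : ZMod p) * t)) - (Nd c t (j * t) : ℝ) - 1 / 2) := by
      refine Finset.sum_congr rfl fun j _ => ?_
      rw [zero_add, Fd_eq]
      have h4 : (j : ZMod p) * t + t = ((j + 1 : ℕ) : ZMod p) * t := by push_cast; ring
      rw [h4]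
    rw [hg]
    simp only
    rw [h3, Finset.sum_sub_distrib, Finset.sum_sub_distrib, h2, Finset.sum_const,
      Finset.card_range, nsmul_eq_mul, Fd_eq, zero_add]
    push_cast
    ring
  -- the sum
  have hsum : ∑ x, g x = Wd c s - k * Wd c t := by
    rw [hg]
    simp only
    rw [Finset.sum_sub_distrib, Finset.sum_comm]
    have h1 : ∀ j ∈ Finset.range k, ∑ x : ZMod p, Fd c t (x + (j : ZMod p) * t) = Wd c t := by
      intro j _
      exact Equiv.sum_comp (Equiv.addRight ((j : ZMod p) * t)) (Fd c t)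
    rw [Finset.sum_congr rfl h1, Finset.sum_const, Finset.card_range, nsmul_eq_mul]
    rfl
  rw [Finset.sum_congr rfl fun x _ => hconst x, Finset.sum_const, Finset.card_univ, ZMod.card,
    nsmul_eq_mul, hm] at hsum
  refine ⟨m, ?_⟩
  unfold th
  have h1 : Wd c s = k * Wd c t + p * ((k - 1) / 2 + m) := by linarith
  rw [h1]
  field_simp
  ring

/-- a circular colouring without winding squares gives a linear phase -/
lemma lin_of_circ (hr : 0 < r) (hc : IsCirc p S r c) (hN : NoWind p S c) : Lin p S r := by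
  have h0 : (0 : ZMod p) ∉ S := by
    intro h'
    have h1 := hc 0 0 (by rwa [sub_zero])
    have h2 := nz_le (c 0 - c 0) 0
    rw [sub_self, Int.cast_zero, sub_zero, abs_zero] at h2
    rw [sub_self] at h1
    linarith
  rcases S.eq_empty_or_nonempty with hS | ⟨t, ht⟩
  · exact ⟨0, fun s hs => by rw [hS] at hs; exact absurd hs (Set.notMem_empty s)⟩
  have hp := p_pos (p := p)
  have ht0 : t ≠ 0 := fun h' => h0 (h' ▸ ht)
  -- the phase of `t` is a multiple of `1 / p`
  obtain ⟨n, hn⟩ := th_lin hN ht ht ht0 (p + 1) (by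
    push_cast
    rw [CharP.cast_eq_zero, zero_add, one_mul])
  have hn' : (p : ℝ) * th c t = ((-n : ℤ) : ℝ) := by
    push_cast at hn ⊢
    linarith
  refine ⟨((-n : ℤ) : ZMod p) * t⁻¹, fun s hs => ?_⟩
  obtain ⟨k, hk⟩ : ∃ k : ℕ, k = (s * t⁻¹).val := ⟨_, rfl⟩
  have hk1 : (k : ZMod p) = s * t⁻¹ := by
    rw [hk, ZMod.natCast_val, ZMod.cast_id]
  have hk2 : s = k * t := by
    rw [hk1, mul_assoc, inv_mul_cancel₀ ht0, mul_one]
  obtain ⟨m, hm⟩ := th_lin hN hs ht ht0 k hk2
  have h1 : ((-n : ℤ) : ZMod p) * t⁻¹ * s = ((-n * k : ℤ) : ZMod p) := by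
    push_cast
    rw [hk1]
    ring
  have h2 : (((((-n : ℤ) : ZMod p) * t⁻¹ * s).val : ℕ) : ℤ) = (-n * k) % p := by
    rw [h1, ZMod.val_intCast]
  obtain ⟨q, hq⟩ : ∃ q : ℤ, q = (-n * k) / p := ⟨_, rfl⟩
  have h3 : (((((-n : ℤ) : ZMod p) * t⁻¹ * s).val : ℕ) : ℤ) = -n * k - p * q := by
    rw [h2, hq]
    have := Int.emod_add_mul_ediv (-n * k) p
    linarith
  have h4 : (((((-n : ℤ) : ZMod p) * t⁻¹ * s).val : ℕ) : ℝ) = (-n : ℝ) * k - p * q := by
    have := congrArg (fun z : ℤ => (z : ℝ)) h3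
    push_cast at this ⊢
    exact this
  have h5 : (((((-n : ℤ) : ZMod p) * t⁻¹ * s).val : ℕ) : ℝ) / p = th c s + ((-m - q : ℤ) : ℝ) := by
    rw [h4, hm]
    push_cast at hn' ⊢
    rw [← hn']
    field_simp
    ring
  rw [h5]
  have h6 := th_mem hc hs
  exact le_nz h6.1 h6.2 _

/-- the differences of a linear phase -/
lemma lin_sub (b x s : ZMod p) : ∃ q : ℤ, ((b * (x + s)).val : ℝ) / p - ((b * x).val : ℝ) / p =
    ((b * s).val : ℝ) / p + (q : ℝ) := by
  have hp := p_pos (p := p)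
  have h2 : b * (x + s) = b * x + b * s := by ring
  have h3 : ((b * (x + s)).val : ℤ) = ((b * x).val + (b * s).val : ℤ) % p := by
    rw [h2, ZMod.val_add]
    push_cast
    rfl
  obtain ⟨q, hq⟩ : ∃ q : ℤ, q = ((b * x).val + (b * s).val : ℤ) / p := ⟨_, rfl⟩
  have h4 : ((b * (x + s)).val : ℤ) = ((b * x).val + (b * s).val : ℤ) - p * q := by
    rw [h3, hq]
    have := Int.emod_add_mul_ediv ((b * x).val + (b * s).val : ℤ) p
    linarith
  have h5 : ((b * (x + s)).val : ℝ) = (b * x).val + (b * s).val - p * q := by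
    have := congrArg (fun z : ℤ => (z : ℝ)) h4
    push_cast at this
    exact this
  refine ⟨-q, ?_⟩
  rw [h5]
  push_cast
  field_simp
  ring

/-- a linear phase gives a circular colouring with constant jumps -/
lemma circ_of_lin (h : Lin p S r) : ∃ c : ZMod p → ℝ, IsCirc p S r c ∧ Narrow p S c := by
  obtain ⟨b, hb⟩ := h
  refine ⟨fun x => ((b * x).val : ℝ) / p, fun x y hxy => ?_, fun s _ x y => ?_⟩
  · obtain ⟨q, hq⟩ := lin_sub b y (x - y)
    rw [add_sub_cancel] at hq
    simp only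
    rw [hq, nz_add_int]
    exact hb _ hxy
  · obtain ⟨q1, hq1⟩ := lin_sub b x s
    obtain ⟨q2, hq2⟩ := lin_sub b y s
    simp only
    rw [hq1, hq2, Int.fract_add_intCast, Int.fract_add_intCast, sub_self]
    norm_num

lemma lin_iff (hr : 0 < r) : Lin p S r ↔ ∃ c, IsCirc p S r c ∧ NoWind p S c :=
  ⟨fun h => (circ_of_lin h).imp fun _ hc => ⟨hc.1, noWind_of hc.2⟩,
    fun ⟨_, hc, hN⟩ => lin_of_circ hr hc hN⟩

/-- colourings by `0, ..., C - 1` -/
lemma lin_of_col {C : ℕ} (f : ZMod p → Fin C) (hf : ∀ x y : ZMod p, x - y ∈ S → f x ≠ f y)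
    (hj : ∀ s ∈ S, ∀ x y : ZMod p, 2 * (jump f s x - jump f s y) < C) : Lin p S (1 / C) := by
  have hC : 0 < C := lt_of_le_of_lt (Nat.zero_le _) (f 0).isLt
  have hCr : (0 : ℝ) < C := by exact_mod_cast hC
  refine lin_of_circ (c := fun x => ((f x).val : ℝ) / C) (by positivity) (fun x y hxy => ?_)
    (noWind_of fun s hs x y => ?_)
  · have h1 := hf x y hxy
    have h2 : (f x).val ≠ (f y).val := fun h => h1 (Fin.ext h)
    have hx := (f x).isLt
    have hy := (f y).isLt
    simp only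
    unfold nz
    set n := round (((f x).val : ℝ) / C - ((f y).val : ℝ) / C) with hn
    have e : ((f x).val : ℝ) / C - ((f y).val : ℝ) / C - n =
        (((f x).val - (f y).val - n * C : ℤ) : ℝ) / C := by
      push_cast
      field_simp
    rw [e, abs_div, abs_of_pos hCr]
    apply div_le_div_of_nonneg_right _ hCr.le
    have h3 : ((f x).val - (f y).val - n * C : ℤ) ≠ 0 := by
      intro h
      rcases lt_trichotomy n 0 with h4 | h4 | h4
      · have h5 : n * (C : ℤ) ≤ -C := by nlinarith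
        omega
      · rw [h4] at h
        omega
      · have h5 : (C : ℤ) ≤ n * C := by nlinarith
        omega
    have h4 : 1 ≤ |((f x).val - (f y).val - n * C : ℤ)| := Int.one_le_abs h3
    have h5 : (1 : ℝ) ≤ ((|((f x).val - (f y).val - n * C : ℤ)| : ℤ) : ℝ) := by exact_mod_cast h4
    rwa [Int.cast_abs] at h5
  · have h1 : ∀ x, Int.fract (((f (x + s)).val : ℝ) / C - ((f x).val : ℝ) / C) =
        (jump f s x : ℝ) / C := by
      intro x
      have h2 : ((f (x + s)).val : ℝ) / C - ((f x).val : ℝ) / C =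
          ((((f (x + s)).val : ℤ) - ((f x).val : ℤ) : ℤ) : ℝ) / (C : ℝ) := by
        push_cast
        ring
      rw [h2, Int.fract_div_intCast_eq_div_intCast_mod]
      rfl
    rw [h1, h1]
    have h3 := hj s hs x y
    have h4 : (2 : ℝ) * ((jump f s x : ℝ) - (jump f s y : ℝ)) < C := by exact_mod_cast h3
    rw [← sub_div, div_lt_div_iff₀ hCr (by norm_num)]
    linarith

/-- coverings by linear phases -/
lemma cov_iff {m : ℕ} (hr : 0 < r) : Cov p S m r ↔ ∃ T : Fin m → Set (ZMod p), S ⊆ ⋃ i, T i ∧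
    ∀ i, ∃ c, IsCirc p (T i) r c ∧ NoWind p (T i) c := by
  constructor
  · rintro ⟨b, hb⟩
    refine ⟨fun i => {s | r ≤ nz (((b i * s).val : ℝ) / p)}, fun s hs => ?_, fun i => ?_⟩
    · obtain ⟨j, hj⟩ := hb s hs
      exact Set.mem_iUnion.2 ⟨j, hj⟩
    · exact (lin_iff hr).1 ⟨b i, fun s hs => hs⟩
  · rintro ⟨T, hT, h⟩
    have h1 : ∀ i, ∃ b : ZMod p, ∀ s ∈ T i, r ≤ nz (((b * s).val : ℝ) / p) := fun i =>
      (lin_iff hr).2 (h i)
    choose b hb using h1
    refine ⟨b, fun s hs => ?_⟩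
    obtain ⟨i, hi⟩ := Set.mem_iUnion.1 (hT hs)
    exact ⟨i, hb i s hi⟩

lemma quad_of_cov {m K : ℕ} (h : Cov p S m r) (hK : m ≤ K) (hKr : 1 / (K : ℝ) < r) :
    Quad p S K := by
  obtain ⟨b, hb⟩ := h
  refine ⟨fun j => if hj : j.val < m then (0, b ⟨j.val, hj⟩) else (0, 0), fun s hs => ?_⟩
  obtain ⟨i, hi⟩ := hb s hs
  refine ⟨⟨i.val, lt_of_lt_of_le i.isLt hK⟩, ?_⟩
  refine lt_of_lt_of_le hKr ?_
  simp only [i.isLt, dif_pos, zero_mul, zero_add]
  exact hi

end

/-- **Main theorem.** Let `p` be prime, `S ⊆ ℤ/p` and `r > 0`.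
1. There are `b 1, ..., b m` such that each `s ∈ S` has `‖b j s / p‖ ≥ r` for some `j` if and only if
   `S` is contained in a union of `m` sets whose Cayley graphs have circular colourings with adjacent
   vertices at distance at least `r` in which no square `x, x + s, x + s + t, x + t` winds around the
   circle. For `m = 1` this is a characterisation of the sets `S` with one linear phase.
2. For one phase it is also equivalent that there is a circular colouring such that along each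
   `s ∈ S` the jumps, as numbers of `[0, 1)`, differ by less than `1/2`.
3. Hence, for every number `C` of colours: if `Cay(ℤ/p, S)` has a proper colouring by `0, ..., C - 1`
   such that along each `s` the jumps modulo `C`, in `0, ..., C - 1`, differ by less than `C / 2`, then
   some `b` has `‖b s / p‖ ≥ 1 / C` for all `s ∈ S`, and Q1 holds with `K = C + 1`.
4. In (1) the property asked for in Q1 holds for each `K ≥ m` with `K > 1 / r`. -/
theorem result (p : ℕ) (hp : p.Prime) (S : Set (ZMod p)) :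
    (∀ (m : ℕ) (r : ℝ), 0 < r → (Cov p S m r ↔ ∃ T : Fin m → Set (ZMod p), S ⊆ ⋃ i, T i ∧
      ∀ i, ∃ c, IsCirc p (T i) r c ∧ NoWind p (T i) c)) ∧
    (∀ r : ℝ, 0 < r → (Lin p S r ↔ ∃ c, IsCirc p S r c ∧ NoWind p S c) ∧
      (Lin p S r ↔ ∃ c, IsCirc p S r c ∧ Narrow p S c)) ∧
    (∀ (C : ℕ) (f : ZMod p → Fin C), (∀ x y : ZMod p, x - y ∈ S → f x ≠ f y) →
      (∀ s ∈ S, ∀ x y : ZMod p, 2 * (jump f s x - jump f s y) < C) →
      Lin p S (1 / C) ∧ Quad p S (C + 1)) ∧
    (∀ (m K : ℕ) (r : ℝ), Cov p S m r → m ≤ K → 1 / (K : ℝ) < r → Quad p S K) := by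
  have : Fact p.Prime := ⟨hp⟩
  refine ⟨fun m r hr => cov_iff hr, fun r hr => ⟨lin_iff hr, circ_of_lin, fun ⟨c, hc, hW⟩ =>
    lin_of_circ hr hc (noWind_of hW)⟩, fun C f hf hj => ?_, fun m K r h hm hK =>
    quad_of_cov h hm hK⟩
  have h1 := lin_of_col f hf hj
  refine ⟨h1, ?_⟩
  have hC : 0 < C := lt_of_le_of_lt (Nat.zero_le _) (f 0).isLt
  have hCr : (0 : ℝ) < C := by exact_mod_cast hC
  obtain ⟨b, hb⟩ := h1
  refine quad_of_cov (m := 1) (r := 1 / C) ⟨fun _ => b, fun s hs => ⟨0, hb s hs⟩⟩ (by omega) ?_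
  push_cast
  exact one_div_lt_one_div_of_lt hCr (by linarith)

end Pool.Agent.Results.MP_2bc700_co.LinearPhases
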